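import Mathlib

/-! Homomorphisms given by generic points. -/

set_option autoImplicit false

namespace Pool.Agent.Helper66.RL

open MvPolynomial IntermediateField

theorem hom_aux {k L M A : Type} [Field k] [Field L] [Field M] [CommRing A] [Algebra k A]
    [Algebra k L] [Algebra k M] [Algebra A L] [IsFractionRing A L] [IsScalarTower k A L]
    (θ : A →ₐ[k] M) (hθ : Function.Injective θ) :
    ∃ φ : L →ₐ[k] M, ∀ a : A, φ (algebraMap A L a) = θ a :=
  ⟨IsFractionRing.liftAlgHom (K := L) hθ, fun a => by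
    rw [IsFractionRing.liftAlgHom_apply, IsFractionRing.lift_algebraMap]
    rfl⟩

/-- homomorphisms given by the generic point -/
theorem exists_hom {k L M : Type} [Field k] [Field L] [Field M] [Algebra k L] [Algebra k M]
    {n : ℕ} (x : Fin n → L) (y : Fin n → M) (hx : adjoin k (Set.range x) = ⊤)
    (h : RingHom.ker (aeval x : MvPolynomial (Fin n) k →ₐ[k] L) =
      RingHom.ker (aeval y : MvPolynomial (Fin n) k →ₐ[k] M)) :
    ∃ φ : L →ₐ[k] M, ∀ c, φ (x c) = y c := by
  let f : MvPolynomial (Fin n) k →ₐ[k] L := aeval x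
  let π : MvPolynomial (Fin n) k →ₐ[k] f.range := f.rangeRestrict
  have hπ : Function.Surjective π := AlgHom.rangeRestrict_surjective f
  have hker : RingHom.ker π ≤ RingHom.ker (aeval y : MvPolynomial (Fin n) k →ₐ[k] M) := by
    rw [← h]
    intro p hp
    exact congrArg Subtype.val (RingHom.mem_ker.1 hp)
  have : IsFractionRing f.range L := by
    refine IsFractionRing.of_field f.range L fun z => ?_
    have h1 : z ∈ adjoin k (Set.range x) := by rw [hx]; trivial
    obtain ⟨a, ha, b, hb, rfl⟩ := mem_adjoin_iff_div.1 h1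
    rw [Algebra.adjoin_range_eq_range_aeval] at ha hb
    exact ⟨⟨a, ha⟩, ⟨b, hb⟩, rfl⟩
  let θ : f.range →ₐ[k] M := AlgHom.liftOfSurjective π hπ (aeval y) hker
  have hθ1 : ∀ p, θ (π p) = aeval y p := fun p => AlgHom.liftOfSurjective_apply π hπ _ hker p
  have hθ : Function.Injective θ := by
    rw [injective_iff_map_eq_zero]
    intro z hz
    obtain ⟨p, rfl⟩ := hπ z
    rw [hθ1] at hz
    have h2 : p ∈ RingHom.ker (aeval x : MvPolynomial (Fin n) k →ₐ[k] L) := by
      rw [h]
      exact hz
    exact Subtype.ext h2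
  obtain ⟨φ, hφ⟩ := hom_aux (L := L) θ hθ
  refine ⟨φ, fun c => ?_⟩
  have h2 := hφ (π (X c))
  rw [hθ1, aeval_X] at h2
  rw [← h2]
  congr 1
  change x c = aeval x (X c)
  rw [aeval_X]

end Pool.Agent.Helper66.RL
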