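import Pool.Agent.Helper66.RL.Mat
import Pool.Agent.Helper66.RL.Hom

/-! The generic point of the space of the solutions of affine-linear equations. -/

set_option autoImplicit false

namespace Pool.Agent.Helper66.RL

open MvPolynomial IntermediateField

theorem affine_core {k L : Type} [Field k] [Field L] [Algebra k L] {n : ℕ} (x : Fin n → L)
    (hx : adjoin k (Set.range x) = ⊤) (E : IntermediateField k L) :
    ∃ (N : ℕ) (t : Fin N → L) (M : Type) (_ : Field M) (_ : Algebra E M) (_ : Algebra k M)
      (_ : IsScalarTower k E M) (U : Submodule E L) (h1 : (1 : L) ∈ U) (hxU : ∀ c, x c ∈ U)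
      (σ : U →ₗ[E] M), σ ⟨1, h1⟩ = 1 ∧
      RingHom.ker (aeval (fun c => σ ⟨x c, hxU c⟩) : MvPolynomial (Fin n) k →ₐ[k] M) ≤
        RingHom.ker (aeval x : MvPolynomial (Fin n) k →ₐ[k] L) ∧
      (∀ φ : L →ₐ[E] M, (∀ c, φ (x c) = σ ⟨x c, hxU c⟩) → AlgebraicIndependent E t) ∧
      ∀ F : IntermediateField k L, E ≤ F → (∀ i, t i ∈ F) → F = ⊤ := by
  classical
  obtain ⟨b, hb1, hb2, hb3, hb4⟩ := exists_linearIndepOn_id_extension (K := E) (V := L)
    (s := {1}) (t := insert 1 (Set.range x)) (LinearIndepOn.singleton one_ne_zero) (by simp)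
  have hbf : b.Finite := ((Set.finite_range x).insert 1).subset hb1
  have : Finite b := hbf
  let I := {z : b // z.1 ≠ 1}
  have : Finite I := inferInstance
  have : Fintype I := Fintype.ofFinite I
  let U : Submodule E L := Submodule.span E b
  have hb4' : LinearIndependent E ((↑) : b → L) := hb4
  let B : Module.Basis b E (Submodule.span E (Set.range ((↑) : b → L))) :=
    Module.Basis.span hb4'
  let M := FractionRing (MvPolynomial I E)
  let f : b → MvPolynomial I E := fun z => if h : z.1 = 1 then 1 else X ⟨z, h⟩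
  let U' : Submodule E L := Submodule.span E (Set.range ((↑) : b → L))
  have hU : ∀ z, z ∈ Submodule.span E b → z ∈ U' := by
    intro z hz
    have h2 : Set.range ((↑) : b → L) = b := Subtype.range_coe
    change z ∈ Submodule.span E (Set.range ((↑) : b → L))
    rw [h2]
    exact hz
  let σ0 : U' →ₗ[E] MvPolynomial I E := B.constr E f
  have hσ0 : ∀ z : b, ∀ hz : z.1 ∈ U', σ0 ⟨z.1, hz⟩ = f z := by
    intro z hz
    have h2 : B z = ⟨z.1, hz⟩ := Module.Basis.span_apply hb4' z
    rw [← h2]
    exact B.constr_basis E f z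
  let ε : MvPolynomial I E →ₐ[E] L := aeval fun z => z.1.1
  have hε : ∀ u : U', ε (σ0 u) = u := by
    have h2 : ε.toLinearMap.comp σ0 = U'.subtype := by
      refine B.ext fun z => ?_
      have h3 : B z = ⟨z.1, hU _ (Submodule.subset_span z.2)⟩ := Module.Basis.span_apply hb4' z
      rw [LinearMap.comp_apply, h3, hσ0 z]
      change ε (f z) = z.1
      by_cases h : z.1 = 1
      · simp only [f, h, dite_true, map_one]
      · simp only [f, h, dite_false, ε, aeval_X]
    intro u
    exact LinearMap.congr_fun h2 u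
  have hxU : ∀ c, x c ∈ U' := fun c => hU _ (hb3 (Or.inr ⟨c, rfl⟩))
  have h1U : (1 : L) ∈ U' := hU _ (hb3 (Or.inl rfl))
  let σ : U' →ₗ[E] M := (Algebra.linearMap (MvPolynomial I E) M).restrictScalars E ∘ₗ σ0
  have hσ : ∀ u, σ u = algebraMap (MvPolynomial I E) M (σ0 u) := fun u => rfl
  have hσ01 : σ0 ⟨1, h1U⟩ = 1 := by
    have h2 := hσ0 ⟨1, hb2 rfl⟩ h1U
    rw [h2]
    simp only [f, dite_true]
  have hinj : Function.Injective (algebraMap (MvPolynomial I E) M) :=
    IsFractionRing.injective _ _
  let e := Fintype.equivFin I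
  refine ⟨Fintype.card I, fun i => (e.symm i).1.1, M, inferInstance, inferInstance, inferInstance,
    inferInstance, U', h1U, hxU, σ, ?_, ?_, ?_, ?_⟩
  · rw [hσ, hσ01, map_one]
  · intro p hp
    rw [RingHom.mem_ker] at hp ⊢
    have h2 : (aeval (fun c => σ ⟨x c, hxU c⟩) p : M) = algebraMap (MvPolynomial I E) M
        (aeval (fun c => σ0 ⟨x c, hxU c⟩) p) := by
      have h3 : (aeval (fun c => σ ⟨x c, hxU c⟩) : MvPolynomial (Fin n) k →ₐ[k] M) =
          (IsScalarTower.toAlgHom k (MvPolynomial I E) M).comp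
            (aeval (fun c => σ0 ⟨x c, hxU c⟩)) := by
        apply MvPolynomial.algHom_ext
        intro c
        simp [hσ]
      exact congrArg (fun f => f p) h3
    rw [h2, map_eq_zero_iff _ hinj] at hp
    have h4 : (ε.restrictScalars k).comp (aeval (fun c => σ0 ⟨x c, hxU c⟩)) = aeval x := by
      apply MvPolynomial.algHom_ext
      intro c
      simp [hε]
    rw [← h4, AlgHom.comp_apply, hp, map_zero]
  · intro φ hφ
    have h2 : ∀ z : b, ∀ hz : z.1 ∈ U', φ z.1 = σ ⟨z.1, hz⟩ := by
      intro z hz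
      rcases hb1 z.2 with h | ⟨c, hc⟩
      · have h3 : (⟨z.1, hz⟩ : U') = ⟨1, h1U⟩ := Subtype.ext h
        rw [h3, hσ, hσ01, map_one, h, map_one]
      · have h3 : (⟨z.1, hz⟩ : U') = ⟨x c, hxU c⟩ := Subtype.ext hc.symm
        rw [h3, ← hc, hφ c]
    refine AlgebraicIndependent.of_comp φ ?_
    have h3 : AlgebraicIndependent E (fun z : I => algebraMap (MvPolynomial I E) M (X z)) :=
      (MvPolynomial.algebraicIndependent_X I E).map' (f := IsScalarTower.toAlgHom E _ M) hinj
    have h4 := h3.comp e.symm e.symm.injective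
    convert h4 using 1
    funext i
    simp only [Function.comp_apply]
    rw [h2 (e.symm i).1 (hU _ (Submodule.subset_span (e.symm i).1.2)), hσ, hσ0]
    simp only [f]
    rw [dif_neg (e.symm i).2]
  · intro F hEF hF
    have h2 : ∀ z : b, z.1 ∈ F := by
      intro z
      by_cases h : z.1 = 1
      · rw [h]
        exact F.one_mem
      · have h3 := hF (e ⟨z, h⟩)
        simp only [Equiv.symm_apply_apply] at h3
        exact h3
    have h3 : ∀ c, x c ∈ F := by
      intro c
      have h4 : Submodule.span E b ≤ (Subalgebra.toSubmodule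
          (IntermediateField.extendScalars hEF).toSubalgebra) := by
        rw [Submodule.span_le]
        intro z hz
        exact h2 ⟨z, hz⟩
      exact h4 (hb3 (Or.inr ⟨c, rfl⟩))
    rw [eq_top_iff, ← hx, adjoin_le_iff]
    rintro _ ⟨c, rfl⟩
    exact h3 c

end Pool.Agent.Helper66.RL
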