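import Mathlib
import Pool.Agent.Helper66.FQ.Rat

/-! Fields generated by at most two elements. -/

set_option autoImplicit false

namespace Pool.Agent.Helper66.RL

open MvPolynomial IntermediateField Pool.Agent.Helper66.FQ

variable {k F : Type} [Field k] [Field F] [Algebra k F]

theorem alg_adjoin {s : ℕ} (v : Fin s → F) (hv : adjoin k (Set.range v) = ⊤) :
    Algebra.IsAlgebraic (Algebra.adjoin k (Set.range v)) F := by
  refine ⟨fun z => ?_⟩
  have h1 : z ∈ adjoin k (Set.range v) := by rw [hv]; trivial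
  obtain ⟨a, ha, b, hb, rfl⟩ := mem_adjoin_iff_div.1 h1
  have h2 : IsAlgebraic (Algebra.adjoin k (Set.range v)) a :=
    isAlgebraic_algebraMap (⟨a, ha⟩ : Algebra.adjoin k (Set.range v))
  have h3 : IsAlgebraic (Algebra.adjoin k (Set.range v)) b :=
    isAlgebraic_algebraMap (⟨b, hb⟩ : Algebra.adjoin k (Set.range v))
  rw [div_eq_mul_inv]
  exact h2.mul h3.inv

theorem trdeg_cases {s : ℕ} (v : Fin s → F) (hv : adjoin k (Set.range v) = ⊤) :
    ∃ τ ≤ s, Algebra.trdeg k F = τ ∧ (τ = s → AlgebraicIndependent k v) := by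
  classical
  have := alg_adjoin v hv
  obtain ⟨t, hts, ht⟩ := exists_isTranscendenceBasis_subset (R := k) (Set.range v)
  have htf : t.Finite := (Set.finite_range v).subset hts
  have h1 : Algebra.trdeg k F = (htf.toFinset.card : ℕ) := by
    rw [← ht.cardinalMk_eq_trdeg, ← Cardinal.mk_coe_finset]
    simp
  have h2 : htf.toFinset ⊆ Finset.univ.image v := by
    intro z hz
    obtain ⟨i, rfl⟩ := hts (htf.mem_toFinset.1 hz)
    exact Finset.mem_image_of_mem _ (Finset.mem_univ i)
  have h3 : (Finset.univ.image v).card ≤ s := Finset.card_image_le.trans (by simp)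
  refine ⟨htf.toFinset.card, (Finset.card_le_card h2).trans h3, h1, fun h4 => ?_⟩
  have h5 : (Finset.univ.image v).card = (Finset.univ : Finset (Fin s)).card := by
    rw [Finset.card_univ, Fintype.card_fin]
    have h9 := Finset.card_le_card h2
    omega
  have hinj : Function.Injective v := by
    have h6 := Finset.card_image_iff.1 h5
    rwa [Finset.coe_univ, Set.injOn_univ] at h6
  have h7 : htf.toFinset = Finset.univ.image v := Finset.eq_of_subset_of_card_le h2 (by
    rw [h5, Finset.card_univ, Fintype.card_fin, h4])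
  have h8 : ∀ i, v i ∈ t := by
    intro i
    rw [← htf.mem_toFinset, h7]
    exact Finset.mem_image_of_mem _ (Finset.mem_univ i)
  exact ht.1.comp (fun i => (⟨v i, h8 i⟩ : t)) fun i j hij => hinj (congrArg Subtype.val hij)

theorem rat_of_indep {s : ℕ} (v : Fin s → F) (hv : adjoin k (Set.range v) = ⊤)
    (h : AlgebraicIndependent k v) : ∃ d, Nonempty (F ≃ₐ[k] RF d k) :=
  ⟨s, PT.equiv ⟨v, h, hv⟩⟩

theorem rat_of_zero [IsAlgClosed k] (h : Algebra.trdeg k F = 0) :
    ∃ d, Nonempty (F ≃ₐ[k] RF d k) := by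
  have : Algebra.IsAlgebraic k F := (trdeg_eq_zero_iff (R := k) (A := F)).1 h
  refine ⟨0, PT.equiv ⟨fun i => i.elim0, (algebraicIndependent_empty_type_iff ..).2
    (algebraMap k F).injective, ?_⟩⟩
  rw [eq_top_iff]
  intro z _
  obtain ⟨a, rfl⟩ := (IsAlgClosed.algebraMap_bijective_of_isIntegral (k := k) (K := F)).2 z
  exact IntermediateField.algebraMap_mem _ _

end Pool.Agent.Helper66.RL
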