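import Pool.Agent.Helper66.FQ.Concl
import Pool.Agent.Helper66.RL.Low

/-! Conclusions for function fields. -/

set_option autoImplicit false

namespace Pool.Agent.Helper66.RL

open MvPolynomial IntermediateField Pool.Agent.Helper66.FQ

theorem concl {k L FF A' ι : Type} [Field k] [Field L] [Field FF] [CommRing A'] [Algebra k L]
    [Algebra k FF] [Algebra k A'] [Algebra A' FF] [IsFractionRing A' FF] [IsScalarTower k A' FF]
    [Fintype ι] {m : ℕ} (x' : ι → A') (hx' : Algebra.adjoin k (Set.range x') = ⊤)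
    (ψ : A' →ₐ[k] L) (hψ : Function.Injective ψ) (u : ι → L) (hu : ∀ j, ψ (x' j) = u j)
    (t : Fin m → L) (ht : AlgebraicIndependent (adjoin k (Set.range u)) t)
    (hg : adjoin k (Set.range u ∪ Set.range t) = ⊤) :
    Nonempty (L ≃ₐ[k] RF m FF) ∧
      ((∃ d, Nonempty (L →ₐ[k] RF d k)) ↔ ∃ d, Nonempty (FF →ₐ[k] RF d k)) ∧
      ((∃ m' d, Nonempty (RF m' L ≃ₐ[k] RF d k)) ↔ ∃ m' d, Nonempty (RF m' FF ≃ₐ[k] RF d k)) ∧
      ((∃ d, Nonempty (FF ≃ₐ[k] RF d k)) → ∃ d, Nonempty (L ≃ₐ[k] RF d k)) := by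
  classical
  let e := Fintype.equivFin ι
  have h1 : Set.range (x' ∘ e.symm) = Set.range x' := EquivLike.range_comp _ _
  have h2 : Set.range (u ∘ e.symm) = Set.range u := EquivLike.range_comp _ _
  exact FQ.concl (x' ∘ e.symm) (by rw [h1, hx']) ψ hψ (u ∘ e.symm) (fun j => hu _) t
    (by rw [h2]; exact ht) (by rw [h2]; exact hg)

theorem gen_fin {k F ι : Type} [Field k] [Field F] [Algebra k F] [Fintype ι] (v : ι → F)
    (hv : adjoin k (Set.range v) = ⊤) : ∃ v' : Fin (Fintype.card ι) → F,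
      adjoin k (Set.range v') = ⊤ := by
  classical
  let e := Fintype.equivFin ι
  refine ⟨v ∘ e.symm, ?_⟩
  have h1 : Set.range (v ∘ e.symm) = Set.range v := EquivLike.range_comp _ _
  rw [h1, hv]

theorem gen_quot {k K A ι : Type} [Field k] [Field K] [CommRing A] [Algebra k A] [Algebra A K]
    [IsFractionRing A K] [Algebra k K] [IsScalarTower k A K] [Fintype ι] (x : ι → A)
    (hx : Algebra.adjoin k (Set.range x) = ⊤) :
    adjoin k (Set.range fun j => algebraMap A K (x j)) = ⊤ := by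
  classical
  let e := Fintype.equivFin ι
  have h1 : Set.range (x ∘ e.symm) = Set.range x := EquivLike.range_comp _ _
  have h2 : Set.range ((fun j => algebraMap A K (x j)) ∘ e.symm) =
      Set.range fun j => algebraMap A K (x j) := EquivLike.range_comp _ _
  rw [← h2]
  exact FQ.gen_quot (x ∘ e.symm) (by rw [h1, hx])

end Pool.Agent.Helper66.RL
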