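import Pool.Agent.Helper66.RL.Mat
import Pool.Agent.Helper66.RL.Hom

/-! The structure of rank loci. -/

set_option autoImplicit false

namespace Pool.Agent.Helper66.RL

open MvPolynomial IntermediateField

/-- linear independence over a bigger field -/
theorem indep_map {L M : Type} [Field L] [Field M] (φ : L →+* M) {ι κ : Type} [Fintype ι]
    [Fintype κ] (v : ι → κ → L) (hv : LinearIndependent L v) :
    LinearIndependent M (fun i c => φ (v i c)) := by
  classical
  obtain ⟨g, hg⟩ := LinearMap.exists_leftInverse_of_injective (Fintype.linearCombination L v)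
    (LinearMap.ker_eq_bot.2 hv.fintypeLinearCombination_injective)
  have h1 : ∀ i i', ∑ c, v i c * g (Pi.single c 1) i' = if i = i' then 1 else 0 := by
    intro i i'
    have h2 : g (v i) = Pi.single i 1 := by
      have h3 := LinearMap.congr_fun hg (Pi.single i 1)
      simpa using h3
    have h4 : v i = ∑ c, v i c • (Pi.single c 1 : κ → L) := by
      funext c
      simp [Finset.sum_apply, Pi.single_apply]
    have h5 : g (v i) i' = ∑ c, v i c * g (Pi.single c 1) i' := by
      conv_lhs => rw [h4, map_sum]
      simp [Finset.sum_apply]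
    rw [← h5, h2, Pi.single_apply]
    simp [eq_comm]
  rw [Fintype.linearIndependent_iff]
  intro a ha i'
  have h6 : ∑ c, (∑ i, a i * φ (v i c)) * φ (g (Pi.single c 1) i') = 0 := by
    refine Finset.sum_eq_zero fun c _ => ?_
    have h7 := congrFun ha c
    simp only [Finset.sum_apply, Pi.smul_apply, smul_eq_mul, Pi.zero_apply] at h7
    rw [h7, zero_mul]
  have h8 : ∑ c, (∑ i, a i * φ (v i c)) * φ (g (Pi.single c 1) i') =
      ∑ i, a i * φ (∑ c, v i c * g (Pi.single c 1) i') := by
    simp only [Finset.sum_mul, map_sum, map_mul, Finset.mul_sum]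
    rw [Finset.sum_comm]
    exact Finset.sum_congr rfl fun i _ => Finset.sum_congr rfl fun c _ => by ring
  rw [h8] at h6
  simp only [h1] at h6
  simpa using h6

/-- the spanning rows -/
theorem exists_S {L : Type} [Field L] {r m : ℕ} (R : Fin r → Fin m → L) (ρ : ℕ)
    (h : (Matrix.of R).rank ≤ ρ) : ∃ S : Finset (Fin r), S.card ≤ ρ ∧
      LinearIndependent L (fun i : S => R i) ∧ ∀ i, ∃ c : S → L, R i = ∑ s, c s • R s := by
  classical
  obtain ⟨b, hb, -, hb1, hb2⟩ := exists_linearIndepOn_extension (K := L) (v := R)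
    (linearIndepOn_empty L R) (Set.subset_univ ∅)
  have h1 : LinearIndependent L (fun i : b.toFinset => R i) := by
    have h2 : LinearIndependent L (fun i : b => R i) := hb2
    exact h2.comp (fun i : b.toFinset => (⟨i.1, Set.mem_toFinset.1 i.2⟩ : b)) (by
      intro i j hij
      exact Subtype.ext (congrArg (fun z : b => z.1) hij))
  refine ⟨b.toFinset, ?_, h1, fun i => ?_⟩
  · have h3 : ((Matrix.of R).submatrix (fun i : b.toFinset => (i : Fin r)) id).rank =
        b.toFinset.card := by
      rw [LinearIndependent.rank_matrix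
        (M := (Matrix.of R).submatrix (fun i : b.toFinset => (i : Fin r)) id) h1, Fintype.card_coe]
    have h4 := (Matrix.of R).rank_submatrix_le (fun i : b.toFinset => (i : Fin r)) id
    omega
  · have h5 : R i ∈ Submodule.span L (Set.range fun s : b.toFinset => R s) := by
      have h6 := hb1 ⟨i, trivial, rfl⟩
      have h7 : R '' b = Set.range fun s : b.toFinset => R s := by
        ext z
        constructor
        · rintro ⟨s, hs, rfl⟩
          exact ⟨⟨s, Set.mem_toFinset.2 hs⟩, rfl⟩
        · rintro ⟨s, rfl⟩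
          exact ⟨s.1, Set.mem_toFinset.1 s.2, rfl⟩
      rw [← h7]
      exact h6
    obtain ⟨c, hc⟩ := (Submodule.mem_span_range_iff_exists_fun L).1 h5
    exact ⟨c, hc.symm⟩

theorem card_bound (r s : ℕ) (hs : s ≤ r) : (r - s) * s ≤ r ^ 2 / 4 := by
  rw [Nat.le_div_iff_mul_le (by norm_num)]
  obtain ⟨t, rfl⟩ := Nat.exists_eq_add_of_le hs
  rw [Nat.add_sub_cancel_left]
  nlinarith [sq_nonneg ((s : ℤ) - t), four_mul_le_sq_add s t, mul_comm s t]

end Pool.Agent.Helper66.RL
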