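import Mathlib
import Pool.Agent.Helper66.FQ.Rat

/-! Lüroth's theorem for curves dominated by rational varieties. -/

set_option autoImplicit false

namespace Pool.Agent.Helper66.RL

open MvPolynomial IntermediateField Pool.Agent.Helper66.FQ

/-- a field generated by `u` is the fraction field of `k[u]` -/
theorem frac_adjoin {k E : Type} [Field k] [Field E] [Algebra k E] (U : Set E)
    (hu : adjoin k U = ⊤) : IsFractionRing (Algebra.adjoin k U) E := by
  refine IsFractionRing.of_field _ _ fun z => ?_
  have hz : z ∈ adjoin k U := by rw [hu]; trivial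
  rw [mem_adjoin_iff_div] at hz
  obtain ⟨r, hr, s, hs, e⟩ := hz
  exact ⟨⟨r, hr⟩, ⟨s, hs⟩, e⟩

/-- a homomorphism of `k[u]` which does not kill the only transcendental direction extends -/
theorem extend {k E L : Type} [Field k] [Field E] [Algebra k E] [Field L] [Algebra k L]
    (U : Set E) (hu : adjoin k U = ⊤) (htr : Algebra.trdeg k E = 1)
    (v : Algebra.adjoin k U) (hv : Transcendental k v)
    (χ : Algebra.adjoin k U →ₐ[k] L) (hχ : Transcendental k (χ v)) :
    ∃ ψ : E →ₐ[k] L, ψ (v : E) = χ v := by
  have := frac_adjoin (k := k) U hu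
  have hx : AlgebraicIndependent k (fun _ : Unit => v) :=
    (algebraicIndependent_unique_type_iff (R := k)).mpr hv
  have hle : Algebra.trdeg k (Algebra.adjoin k U) ≤ Cardinal.mk Unit := by
    have h1 := trdeg_le_of_injective (R := k) (Algebra.adjoin k U).val
      Subtype.val_injective
    rw [htr] at h1
    simpa using h1
  have hb : IsTranscendenceBasis k (fun _ : Unit => v) :=
    hx.isTranscendenceBasis_of_trdeg_le_of_finite hle
  have halg := hb.isAlgebraic
  have hinj : Function.Injective χ := by
    rw [injective_iff_map_eq_zero]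
    intro z hz
    by_contra hz0
    have h1 : IsAlgebraic (Algebra.adjoin k (Set.range fun _ : Unit => v)) z := halg.isAlgebraic z
    obtain ⟨⟨r, hr⟩, hr0, w, hw⟩ := h1.exists_nonzero_dvd (mem_nonZeroDivisors_of_ne_zero hz0)
    have hr' : r ∈ Algebra.adjoin k {v} := by simpa [Set.range_const] using hr
    rw [Algebra.adjoin_singleton_eq_range_aeval] at hr'
    obtain ⟨P, hP⟩ := hr'
    have hP' : (Polynomial.aeval v) P = r := hP
    have h2 : χ r = 0 := by
      have : r = z * w := hw
      rw [this, map_mul, hz, zero_mul]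
    have h3 : Polynomial.aeval (χ v) P = 0 := by
      rw [Polynomial.aeval_algHom_apply]
      rw [hP', h2]
    have h4 : P = 0 := by
      by_contra hP0
      exact hχ ⟨P, hP0, h3⟩
    apply hr0
    apply Subtype.ext
    change r = 0
    rw [← hP', h4]
    simp
  refine ⟨IsFractionRing.liftAlgHom (K := E) hinj, ?_⟩
  have := IsFractionRing.lift_algebraMap (K := E) hinj v
  exact this

/-- a polynomial which is not zero has a point where it does not vanish -/
theorem exists_pt {k : Type} [Field k] [Infinite k] {d : ℕ} (g : MvPolynomial (Fin d) k)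
    (hg : g ≠ 0) : ∃ p : Fin d → k, eval p g ≠ 0 := by
  by_contra h
  push Not at h
  apply hg
  apply MvPolynomial.funext
  intro p
  rw [h p, map_zero]

/-- restriction to a line -/
noncomputable def line {k : Type} [Field k] {d : ℕ} (p q : Fin d → k) :
    MvPolynomial (Fin d) k →ₐ[k] Polynomial k :=
  aeval fun c => Polynomial.C (p c) + Polynomial.X * Polynomial.C (q c - p c)

theorem line_zero {k : Type} [Field k] {d : ℕ} (p q : Fin d → k) (g : MvPolynomial (Fin d) k) :
    (line p q g).eval 0 = eval p g := by
  have h : ((Polynomial.aeval (0 : k)).comp (line p q)) = MvPolynomial.aeval p := by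
    apply MvPolynomial.algHom_ext
    intro i
    simp [line]
  have h2 := congrArg (fun f => f g) h
  simpa [Polynomial.coe_aeval_eq_eval, MvPolynomial.coe_aeval_eq_eval] using h2

theorem line_one {k : Type} [Field k] {d : ℕ} (p q : Fin d → k) (g : MvPolynomial (Fin d) k) :
    (line p q g).eval 1 = eval q g := by
  have h : ((Polynomial.aeval (1 : k)).comp (line p q)) = MvPolynomial.aeval q := by
    apply MvPolynomial.algHom_ext
    intro i
    simp [line]
  have h2 := congrArg (fun f => f g) h
  simpa [Polynomial.coe_aeval_eq_eval, MvPolynomial.coe_aeval_eq_eval] using h2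

/-- `RatFunc k` is purely transcendental -/
theorem pt_ratFunc (k : Type) [Field k] : PT 1 k (RatFunc k) := by
  refine ⟨fun _ => RatFunc.X, ?_, ?_⟩
  · rw [algebraicIndependent_unique_type_iff]
    refine RatFunc.transcendental_of_ne_C _ ?_
    rintro ⟨c, hc⟩
    have h1 := congrArg RatFunc.num hc
    rw [RatFunc.num_X, RatFunc.num_C] at h1
    exact Polynomial.X_ne_C c h1
  · rw [Set.range_const]
    exact RatFunc.adjoin_X

theorem luroth_rf {k E : Type} [Field k] [IsAlgClosed k] [Field E] [Algebra k E] {s d : ℕ}
    (u : Fin s → E) (hu : adjoin k (Set.range u) = ⊤) (htr : Algebra.trdeg k E = 1)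
    (f : E →ₐ[k] RF d k) : Nonempty (E ≃ₐ[k] RF 1 k) := by
  classical
  have : Infinite k := IsAlgClosed.instInfinite
  -- a transcendental generator
  have hi : ∃ i, Transcendental k (u i) := by
    by_contra hcon
    push Not at hcon
    have h1 : Algebra.IsAlgebraic k (adjoin k (Set.range u)) := by
      apply IntermediateField.isAlgebraic_adjoin
      rintro _ ⟨i, rfl⟩
      have := hcon i
      rw [Transcendental, not_not] at this
      exact this.isIntegral
    rw [hu] at h1
    have h2 : Algebra.IsAlgebraic k E :=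
      (IntermediateField.topEquiv (F := k) (E := E)).isAlgebraic
    rw [trdeg_eq_zero] at htr
    exact zero_ne_one htr
  obtain ⟨i, hi⟩ := hi
  -- numerators and denominators
  have hab : ∀ j, ∃ a b : MvPolynomial (Fin d) k, b ≠ 0 ∧
      f (u j) * algebraMap _ (RF d k) b = algebraMap _ (RF d k) a := by
    intro j
    obtain ⟨a, b, hb, h⟩ := IsFractionRing.div_surjective (A := MvPolynomial (Fin d) k) (f (u j))
    have hb0 : b ≠ 0 := nonZeroDivisors.ne_zero hb
    refine ⟨a, b, hb0, ?_⟩
    rw [← h, div_mul_cancel₀]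
    intro h0
    exact hb0 (IsFractionRing.injective (MvPolynomial (Fin d) k) (RF d k) (by rw [h0, map_zero]))
  choose a b hb0 hfab using hab
  set B : MvPolynomial (Fin d) k := ∏ j, b j with hB
  have hB0 : B ≠ 0 := Finset.prod_ne_zero_iff.mpr fun j _ => hb0 j
  -- two points
  obtain ⟨p, hp⟩ := exists_pt B hB0
  have hbp : ∀ j, eval p (b j) ≠ 0 := by
    intro j h
    apply hp
    rw [hB, map_prod]
    exact Finset.prod_eq_zero (Finset.mem_univ j) h
  set c : k := eval p (a i) / eval p (b i) with hc
  have hne : a i - C c * b i ≠ 0 := by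
    intro h
    have h1 : a i = C c * b i := sub_eq_zero.mp h
    have h2 := hfab i
    rw [h1, map_mul] at h2
    have h3 : f (u i) = algebraMap k (RF d k) c := by
      have hb' : algebraMap _ (RF d k) (b i) ≠ 0 := by
        intro h0
        exact hb0 i (IsFractionRing.injective (MvPolynomial (Fin d) k) (RF d k)
          (by rw [h0, map_zero]))
      have h4 := mul_right_cancel₀ hb' h2
      rw [h4]
      rfl
    have h5 : u i = algebraMap k E c := by
      apply f.injective
      change f (u i) = f (algebraMap k E c)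
      rw [h3, AlgHom.commutes]
    apply hi
    rw [h5]
    exact isAlgebraic_algebraMap c
  obtain ⟨q, hq⟩ := exists_pt (B * (a i - C c * b i)) (mul_ne_zero hB0 hne)
  rw [map_mul, mul_ne_zero_iff, map_sub, map_mul, eval_C] at hq
  -- the line
  set θ : MvPolynomial (Fin d) k →ₐ[k] RatFunc k :=
    (IsScalarTower.toAlgHom k (Polynomial k) (RatFunc k)).comp (line p q) with hθ
  have hθB : θ B ≠ 0 := by
    intro h
    have h1 : algebraMap (Polynomial k) (RatFunc k) (line p q B) = 0 := h
    have h2 : line p q B = 0 := by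
      apply IsFractionRing.injective (Polynomial k) (RatFunc k)
      rw [h1, map_zero]
    have h3 := line_zero p q B
    rw [h2] at h3
    simp at h3
    exact hp h3.symm
  -- the localization
  let A := MvPolynomial (Fin d) k
  let Lb := Localization.Away B
  have hθu : ∀ y : Submonoid.powers B, IsUnit (θ y) := by
    rintro ⟨y, n, rfl⟩
    rw [map_pow]
    exact (IsUnit.mk0 _ hθB).pow n
  let θ' : Lb →ₐ[k] RatFunc k := IsLocalization.liftAlgHom (M := Submonoid.powers B) hθu
  have hθ' : ∀ x : A, θ' (algebraMap A Lb x) = θ x := fun x =>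
    IsLocalization.lift_eq (M := Submonoid.powers B) (g := (θ : A →+* RatFunc k)) hθu x
  let α : A →ₐ[k] RF d k := IsScalarTower.toAlgHom k A (RF d k)
  have hα0 : ∀ x : A, α x = 0 → x = 0 := fun x hx =>
    IsFractionRing.injective A (RF d k) (by
      have : algebraMap A (RF d k) x = 0 := hx
      rw [this, map_zero])
  have hαu : ∀ y : Submonoid.powers B, IsUnit (α y) := by
    rintro ⟨y, n, rfl⟩
    rw [map_pow]
    exact (IsUnit.mk0 _ fun h => hB0 (hα0 B h)).pow n
  let ι : Lb →ₐ[k] RF d k := IsLocalization.liftAlgHom (M := Submonoid.powers B) hαu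
  have hι' : ∀ x : A, ι (algebraMap A Lb x) = α x := fun x =>
    IsLocalization.lift_eq (M := Submonoid.powers B) (g := (α : A →+* RF d k)) hαu x
  have hιinj : Function.Injective ι := by
    rw [injective_iff_map_eq_zero]
    intro z hz
    obtain ⟨⟨x, y⟩, hxy⟩ := IsLocalization.surj (Submonoid.powers B) z
    have h1 := congrArg ι hxy
    simp only [map_mul, hz, zero_mul] at h1
    change 0 = ι (algebraMap A Lb x) at h1
    rw [hι'] at h1
    have h2 : x = 0 := hα0 x h1.symm
    have h3 : z * algebraMap A Lb y = 0 := by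
      rw [hxy]
      change algebraMap A Lb x = 0
      rw [h2, map_zero]
    have h4 : IsUnit (algebraMap A Lb y) := IsLocalization.map_units Lb y
    exact (h4.mul_left_eq_zero).mp h3
  have hw : ∀ j, ∃ w : Lb, ι w = f (u j) := by
    intro j
    have h4 : IsUnit (algebraMap A Lb B) := IsLocalization.Away.algebraMap_isUnit B
    obtain ⟨v, hv⟩ := h4.exists_right_inv
    refine ⟨algebraMap A Lb (a j * ∏ l ∈ Finset.univ.erase j, b l) * v, ?_⟩
    have e1 : B = b j * ∏ l ∈ Finset.univ.erase j, b l :=
      (Finset.mul_prod_erase _ _ (Finset.mem_univ j)).symm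
    have hB1 : α B ≠ 0 := fun h => hB0 (hα0 B h)
    have e2 : α B * ι v = 1 := by
      rw [← hι', ← map_mul, hv, map_one]
    have e3 : f (u j) * α (b j) = α (a j) := hfab j
    rw [map_mul, hι', map_mul, ← e3]
    calc f (u j) * α (b j) * α (∏ l ∈ Finset.univ.erase j, b l) * ι v
        = f (u j) * (α (b j * ∏ l ∈ Finset.univ.erase j, b l) * ι v) := by
          rw [map_mul]; ring
      _ = f (u j) := by rw [← e1, e2, mul_one]
  let S0 := Algebra.adjoin k (Set.range u)
  have hrange : ∀ z : S0, f z ∈ ι.range := by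
    have h1 : S0 ≤ ι.range.comap f := by
      apply Algebra.adjoin_le
      rintro _ ⟨j, rfl⟩
      obtain ⟨w, hw⟩ := hw j
      exact ⟨w, hw⟩
    intro z
    exact h1 z.2
  let g1 : S0 →ₐ[k] ι.range := (f.comp S0.val).codRestrict ι.range hrange
  let e := AlgEquiv.ofInjective ι hιinj
  let χ : S0 →ₐ[k] RatFunc k := θ'.comp (e.symm.toAlgHom.comp g1)
  have hχ : ∀ (z : S0) (w : Lb), ι w = f z → χ z = θ' w := by
    intro z w h
    have h1 : e w = g1 z := by
      apply Subtype.ext
      exact h
    change θ' (e.symm (g1 z)) = θ' w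
    rw [← h1, AlgEquiv.symm_apply_apply]
  let v : S0 := ⟨u i, Algebra.subset_adjoin ⟨i, rfl⟩⟩
  have hv : Transcendental k v := by
    intro hv
    apply hi
    exact (isAlgebraic_algHom_iff S0.val Subtype.val_injective (a := v)).mpr hv
  have hχv : χ v * θ (b i) = θ (a i) := by
    obtain ⟨w, hw⟩ := hw i
    have h1 : w * algebraMap A Lb (b i) = algebraMap A Lb (a i) := by
      apply hιinj
      rw [map_mul, hι', hι', hw]
      exact hfab i
    rw [hχ v w hw, ← hθ' (b i), ← map_mul, h1, hθ']
  have htrans : Transcendental k (χ v) := by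
    refine RatFunc.transcendental_of_ne_C _ ?_
    rintro ⟨c', hc'⟩
    rw [hc'] at hχv
    have h1 : algebraMap (Polynomial k) (RatFunc k) (Polynomial.C c' * line p q (b i))
        = algebraMap (Polynomial k) (RatFunc k) (line p q (a i)) := by
      rw [map_mul, RatFunc.algebraMap_C]
      exact hχv
    have h2 := IsFractionRing.injective (Polynomial k) (RatFunc k) h1
    have h3 := congrArg (Polynomial.eval 0) h2
    have h4 := congrArg (Polynomial.eval 1) h2
    rw [Polynomial.eval_mul, Polynomial.eval_C, line_zero, line_zero] at h3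
    rw [Polynomial.eval_mul, Polynomial.eval_C, line_one, line_one] at h4
    have h5 : c' = c := by
      rw [hc, eq_div_iff (hbp i)]; exact h3
    apply hq.2
    rw [← h4, h5, sub_self]
  obtain ⟨ψ, hψ⟩ := extend (Set.range u) hu htr v hv χ htrans
  have hne' : ψ.fieldRange ≠ ⊥ := by
    intro h
    have h1 : ψ (v : E) ∈ ψ.fieldRange := ⟨_, rfl⟩
    rw [h, IntermediateField.mem_bot] at h1
    obtain ⟨c', hc'⟩ := h1
    rw [hψ] at hc'
    apply htrans
    rw [← hc']
    exact isAlgebraic_algebraMap c'
  have e1 : E ≃ₐ[k] ψ.fieldRange := AlgEquiv.ofInjectiveField ψ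
  have e2 : ψ.fieldRange ≃ₐ[k] RatFunc k := (RatFunc.Luroth.algEquiv hne').symm
  obtain ⟨e3⟩ := (pt_ratFunc k).equiv
  exact ⟨(e1.trans e2).trans e3⟩

end Pool.Agent.Helper66.RL
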