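import Pool.Agent.Helper66.RL.Aff
import Pool.Agent.Helper66.RL.Core

/-! The structure of rank loci. -/

set_option autoImplicit false

namespace Pool.Agent.Helper66.RL

open MvPolynomial IntermediateField

/-- The coordinates of the product of the Grassmannians of the relations between the rows. -/
abbrev Idx {J : ℕ} {r : Fin J → ℕ} (S : ∀ j, Finset (Fin (r j))) : Type :=
  Σ j : Fin J, ({i : Fin (r j) // i ∉ S j} × {i : Fin (r j) // i ∈ S j})

theorem core {k L : Type} [Field k] [Field L] [Algebra k L] {n J : ℕ} {r m : Fin J → ℕ}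
    (B : ∀ j, Matrix (Fin (r j)) (Fin (m j)) (MvPolynomial (Fin n) k)) (ρ : Fin J → ℕ)
    (hB : ∀ j i c, (B j i c).totalDegree ≤ 1) (x : Fin n → L)
    (hx : adjoin k (Set.range x) = ⊤)
    (hP : RingHom.ker (aeval x : MvPolynomial (Fin n) k →ₐ[k] L) ∈
      (Ideal.span (minors B ρ)).minimalPrimes) :
    ∃ (S : ∀ j, Finset (Fin (r j))) (l0 : Idx S → L) (N : ℕ) (t : Fin N → L),
      (∀ j, (S j).card ≤ ρ j) ∧ Fintype.card (Idx S) ≤ ∑ j, (r j) ^ 2 / 4 ∧
      (∀ j, LinearIndependent L fun (i : {i // i ∈ S j}) c => (aeval x (B j i c) : L)) ∧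
      (∀ j (i : {i // i ∉ S j}) c, (aeval x (B j i c) : L) =
        ∑ s : {i // i ∈ S j}, l0 ⟨j, i, s⟩ * aeval x (B j s c)) ∧
      AlgebraicIndependent (adjoin k (Set.range l0)) t ∧
      adjoin k (Set.range l0 ∪ Set.range t) = ⊤ := by
  classical
  let R : ∀ j, Fin (r j) → Fin (m j) → L := fun j i c => aeval x (B j i c)
  have hrank : ∀ j, (Matrix.of (R j)).rank ≤ ρ j := by
    intro j
    refine rank_le_of_det _ fun f f' => ?_
    have h1 : ((B j).submatrix f f').det ∈
        RingHom.ker (aeval x : MvPolynomial (Fin n) k →ₐ[k] L) :=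
      hP.1.2 (Ideal.subset_span ⟨j, f, f', rfl⟩)
    rw [RingHom.mem_ker] at h1
    have h2 := AlgHom.map_det (aeval x : MvPolynomial (Fin n) k →ₐ[k] L) ((B j).submatrix f f')
    rw [h1] at h2
    exact h2.symm
  choose S hS1 hS2 c hc using fun j => exists_S (R j) (ρ j) (hrank j)
  let Λ := Idx S
  let l0 : Λ → L := fun q => c q.1 q.2.1 q.2.2
  have hcard : Fintype.card (Idx S) ≤ ∑ j, (r j) ^ 2 / 4 := by
    rw [Fintype.card_sigma]
    refine Finset.sum_le_sum fun j _ => ?_
    rw [Fintype.card_prod, Fintype.card_coe, Fintype.card_subtype_compl, Fintype.card_coe,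
      Fintype.card_fin]
    exact card_bound _ _ ((Finset.card_le_univ (S j)).trans (by rw [Fintype.card_fin]))
  obtain ⟨E, hE⟩ : ∃ E : IntermediateField k L, E = adjoin k (Set.range l0) := ⟨_, rfl⟩
  have hl0 : ∀ q, l0 q ∈ E := fun q => hE ▸ subset_adjoin _ _ ⟨q, rfl⟩
  obtain ⟨N, t, M, _, _, _, _, U, h1U, hxU, σ, hσ1, hσk, hσφ, hσF⟩ := affine_core x hx E
  let y : Fin n → M := fun c => σ ⟨x c, hxU c⟩
  have hmem : ∀ j i c', aeval x (B j i c') ∈ U := fun j i c' =>
    (lin_comp U σ h1U hσ1 x hxU _ (hB j i c')).1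
  have hval : ∀ j i c', σ ⟨aeval x (B j i c'), hmem j i c'⟩ = aeval y (B j i c') :=
    fun j i c' => (lin_comp U σ h1U hσ1 x hxU _ (hB j i c')).2
  -- the relation of the rows
  have hrel : ∀ j (i : {i : Fin (r j) // i ∉ S j}) c', aeval y (B j i c') =
      ∑ s : S j, algebraMap E M ⟨l0 ⟨j, i, s⟩, hl0 _⟩ * aeval y (B j s c') := by
    intro j i c'
    have h2 : (⟨aeval x (B j i c'), hmem j i c'⟩ : U) =
        ∑ s : S j, (⟨l0 ⟨j, i, s⟩, hl0 _⟩ : E) • (⟨aeval x (B j s c'), hmem j s c'⟩ : U) := by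
      apply Subtype.ext
      have h3 := congrFun (hc j i) c'
      simp only [Finset.sum_apply, Pi.smul_apply, smul_eq_mul] at h3
      change R j i c' = _
      rw [h3]
      simp only [Submodule.coe_sum, Submodule.coe_smul]
      rfl
    rw [← hval, h2, map_sum]
    refine Finset.sum_congr rfl fun s _ => ?_
    rw [map_smul, hval, Algebra.smul_def]
  -- the rank
  have hy : ∀ j, (Matrix.of fun i c' => (aeval y (B j i c') : M)).rank ≤ ρ j := by
    intro j
    refine le_trans ?_ (hS1 j)
    rw [Matrix.rank_eq_finrank_span_row]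
    have h2 : Submodule.span M (Set.range (Matrix.of fun i c' => (aeval y (B j i c') : M)).row) ≤
        Submodule.span M (Set.range fun s : S j => fun c' => (aeval y (B j s c') : M)) := by
      rw [Submodule.span_le]
      rintro _ ⟨i, rfl⟩
      by_cases hi : i ∈ S j
      · exact Submodule.subset_span ⟨⟨i, hi⟩, rfl⟩
      · refine (Submodule.mem_span_range_iff_exists_fun M).2
          ⟨fun s => algebraMap E M ⟨l0 ⟨j, ⟨i, hi⟩, s⟩, hl0 _⟩, ?_⟩
        funext c'
        simp only [Finset.sum_apply, Pi.smul_apply, smul_eq_mul]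
        exact (hrel j ⟨i, hi⟩ c').symm
    calc _ ≤ _ := Submodule.finrank_mono h2
      _ ≤ _ := finrank_range_le_card _
      _ = (S j).card := Fintype.card_coe _
  have hmin : Ideal.span (minors B ρ) ≤
      RingHom.ker (aeval y : MvPolynomial (Fin n) k →ₐ[k] M) := by
    rw [Ideal.span_le]
    rintro _ ⟨j, f, f', rfl⟩
    have h2 := det_eq_zero_of_rank _ (hy j) f f'
    have h3 := AlgHom.map_det (aeval y : MvPolynomial (Fin n) k →ₐ[k] M) ((B j).submatrix f f')
    rw [SetLike.mem_coe, RingHom.mem_ker, h3]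
    exact h2
  have hker : RingHom.ker (aeval x : MvPolynomial (Fin n) k →ₐ[k] L) =
      RingHom.ker (aeval y : MvPolynomial (Fin n) k →ₐ[k] M) :=
    le_antisymm (hP.2 ⟨RingHom.ker_isPrime _, hmin⟩ hσk) hσk
  obtain ⟨φ, hφ⟩ := exists_hom x y hx hker
  have hφp : ∀ p : MvPolynomial (Fin n) k, φ (aeval x p) = aeval y p := by
    intro p
    have h2 : φ.comp (aeval x) = aeval y := by
      apply MvPolynomial.algHom_ext
      intro c'
      simp [hφ]
    exact congrArg (fun f => f p) h2
  have hφl : ∀ q : Λ, φ (l0 q) = algebraMap E M ⟨l0 q, hl0 q⟩ := by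
    rintro ⟨j, i, s⟩
    have h2 := indep_map φ.toRingHom _ (hS2 j)
    rw [Fintype.linearIndependent_iff] at h2
    have h3 := h2 (fun s => φ (l0 ⟨j, i, s⟩) - algebraMap E M ⟨l0 ⟨j, i, s⟩, hl0 _⟩) (by
      funext c'
      simp only [Finset.sum_apply, Pi.smul_apply, smul_eq_mul, Pi.zero_apply, sub_mul,
        Finset.sum_sub_distrib]
      have h4 := congrFun (hc j i) c'
      simp only [Finset.sum_apply, Pi.smul_apply, smul_eq_mul] at h4
      have h5 := congrArg φ h4
      rw [map_sum] at h5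
      simp only [map_mul] at h5
      have h6 : φ (R j i c') = aeval y (B j i c') := hφp _
      rw [h6, hrel j i c'] at h5
      rw [sub_eq_zero]
      refine Eq.trans ?_ (h5.symm.trans ?_)
      · rfl
      · refine Finset.sum_congr rfl fun s _ => ?_
        congr 1
        exact (hφp _).symm) s
    exact sub_eq_zero.1 h3
  have hφE : ∀ z : E, φ z = algebraMap E M z := by
    have h2 : φ.comp E.val = IsScalarTower.toAlgHom k E M := by
      subst hE
      refine adjoin_algHom_ext k fun z hz => ?_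
      obtain ⟨i, rfl⟩ := hz
      exact hφl i
    intro z
    exact congrArg (fun f => f z) h2
  let φE : L →ₐ[E] M := { φ.toRingHom with commutes' := fun z => hφE z }
  refine ⟨S, l0, N, t, hS1, hcard, hS2, fun j i c' => ?_, ?_, ?_⟩
  · have h3 := congrFun (hc j i) c'
    simp only [Finset.sum_apply, Pi.smul_apply, smul_eq_mul] at h3
    exact h3
  · rw [← hE]
    exact hσφ φE fun c' => hφ c'
  · refine hσF _ ?_ fun i => subset_adjoin _ _ (Or.inr ⟨i, rfl⟩)
    rw [hE]
    exact adjoin.mono _ _ _ Set.subset_union_left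

end Pool.Agent.Helper66.RL
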