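import Mathlib

/-! Minors and the rank, affine-linear polynomials. -/

set_option autoImplicit false

namespace Pool.Agent.Helper66.RL

open MvPolynomial

/-- The minors of size `ρ j + 1` of the matrices `B j`. -/
def minors {R : Type} [CommRing R] {J : ℕ} {r m : Fin J → ℕ}
    (B : ∀ j, Matrix (Fin (r j)) (Fin (m j)) R) (ρ : Fin J → ℕ) : Set R :=
  {g | ∃ (j : Fin J) (f : Fin (ρ j + 1) → Fin (r j)) (f' : Fin (ρ j + 1) → Fin (m j)),
    g = ((B j).submatrix f f').det}

theorem det_eq_zero_of_rank {L : Type} [Field L] {r m ρ : ℕ} (M : Matrix (Fin r) (Fin m) L)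
    (h : M.rank ≤ ρ) (f : Fin (ρ + 1) → Fin r) (f' : Fin (ρ + 1) → Fin m) :
    (M.submatrix f f').det = 0 := by
  by_contra hcon
  have h1 : (M.submatrix f f').rank = ρ + 1 := by
    rw [Matrix.rank_of_isUnit _ ((Matrix.isUnit_iff_isUnit_det _).2 (isUnit_iff_ne_zero.2 hcon)),
      Fintype.card_fin]
  have h2 := M.rank_submatrix_le f f'
  omega

theorem exists_rows {L : Type} [Field L] {ι κ : Type} [Fintype ι] [Fintype κ] (M : Matrix ι κ L)
    (a : ℕ) (ha : a ≤ M.rank) : ∃ f : Fin a → ι, LinearIndependent L (fun i => M (f i)) := by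
  obtain ⟨f, hf, hf1, hf2⟩ := Submodule.exists_fun_fin_finrank_span_eq L (Set.range M.row)
  choose g hg using hf
  rw [Matrix.rank_eq_finrank_span_row] at ha
  refine ⟨fun i => g (Fin.castLE ha i), ?_⟩
  have h1 := hf2.comp (Fin.castLE ha) (Fin.castLE_injective ha)
  have h2 : (fun i => M (g (Fin.castLE ha i))) = f ∘ Fin.castLE ha := funext fun i => hg _
  rw [h2]
  exact h1

theorem rank_le_of_det {L : Type} [Field L] {r m ρ : ℕ} (M : Matrix (Fin r) (Fin m) L)
    (h : ∀ (f : Fin (ρ + 1) → Fin r) (f' : Fin (ρ + 1) → Fin m), (M.submatrix f f').det = 0) :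
    M.rank ≤ ρ := by
  by_contra hcon
  obtain ⟨f, hf⟩ := exists_rows M (ρ + 1) (by omega)
  have h1 : (M.submatrix f id).rank = ρ + 1 := by
    rw [LinearIndependent.rank_matrix (M := M.submatrix f id) hf, Fintype.card_fin]
  obtain ⟨f', hf'⟩ := exists_rows (M.submatrix f id).transpose (ρ + 1) (by
    rw [Matrix.rank_transpose, h1])
  have h2 := h f f'
  have h3 := Matrix.linearIndependent_rows_iff_isUnit.1
    (show LinearIndependent L (M.submatrix f f').transpose.row from hf')
  rw [Matrix.isUnit_iff_isUnit_det, Matrix.det_transpose, h2] at h3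
  exact not_isUnit_zero h3

/-- polynomials of degree at most one -/
theorem lin_form {k : Type} [Field k] {n : ℕ} (p : MvPolynomial (Fin n) k)
    (hp : p.totalDegree ≤ 1) :
    p = C (coeff 0 p) + ∑ i, C (coeff (Finsupp.single i 1) p) * X i := by
  classical
  ext d
  simp only [coeff_add, coeff_C, coeff_sum, coeff_C_mul, coeff_X]
  by_cases h0 : d = 0
  · subst h0
    simp
  · by_cases h1 : ∃ i, Finsupp.single i 1 = d
    · obtain ⟨i, rfl⟩ := h1
      rw [if_neg (Ne.symm h0), zero_add, Finset.sum_eq_single i]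
      · simp
      · intro j _ hj
        rw [if_neg, mul_zero]
        intro h2
        exact hj ((Finsupp.single_left_injective one_ne_zero) h2)
      · simp
    · push Not at h1
      rw [if_neg (Ne.symm h0), zero_add, Finset.sum_eq_zero]
      · by_contra hcon
        have h2 : (d.sum fun _ e => e) ≤ 1 :=
          (le_totalDegree (mem_support_iff.2 fun h => hcon h)).trans hp
        have h3 : ∃ i, d i ≠ 0 := by
          by_contra h3
          push Not at h3
          exact h0 (Finsupp.ext h3)
        obtain ⟨i, hi⟩ := h3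
        refine h1 i (Finsupp.ext fun j => ?_)
        rw [Finsupp.sum_fintype _ _ (fun _ => rfl)] at h2
        by_cases hij : i = j
        · subst hij
          have h4 := Finset.single_le_sum (f := fun i => d i) (fun _ _ => Nat.zero_le _)
            (Finset.mem_univ i)
          simp only [Finsupp.single_eq_same]
          omega
        · have h4 := Finset.add_le_sum (f := fun i => d i) (fun _ _ => Nat.zero_le _)
            (Finset.mem_univ i) (Finset.mem_univ j) hij
          rw [Finsupp.single_eq_of_ne (Ne.symm hij)]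
          omega
      · intro i _
        rw [if_neg (h1 i), mul_zero]

/-- affine-linear polynomials commute with affine-linear maps -/
theorem lin_comp {k E L M : Type} [Field k] [Field E] [Field L] [CommRing M] [Algebra k E]
    [Algebra k L] [Algebra E L] [IsScalarTower k E L] [Algebra k M] [Algebra E M]
    [IsScalarTower k E M] {n : ℕ} (U : Submodule E L) (σ : U →ₗ[E] M) (h1 : (1 : L) ∈ U)
    (hσ : σ ⟨1, h1⟩ = 1) (x : Fin n → L) (hx : ∀ c, x c ∈ U) (p : MvPolynomial (Fin n) k)
    (hp : p.totalDegree ≤ 1) :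
    ∃ h : aeval x p ∈ U, σ ⟨aeval x p, h⟩ = aeval (fun c => σ ⟨x c, hx c⟩) p := by
  have h2 : aeval x p = coeff 0 p • (1 : L) + ∑ i, coeff (Finsupp.single i 1) p • x i := by
    conv_lhs => rw [lin_form p hp]
    simp [Algebra.smul_def]
  have h3 : aeval (fun c => σ ⟨x c, hx c⟩) p =
      coeff 0 p • (1 : M) + ∑ i, coeff (Finsupp.single i 1) p • σ ⟨x i, hx i⟩ := by
    conv_lhs => rw [lin_form p hp]
    simp [Algebra.smul_def]
  have h4 : aeval x p ∈ U := by
    rw [h2]
    refine U.add_mem ?_ (U.sum_mem fun i _ => ?_)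
    · rw [← algebraMap_smul E]
      exact U.smul_mem _ h1
    · rw [← algebraMap_smul E]
      exact U.smul_mem _ (hx i)
  refine ⟨h4, ?_⟩
  have h5 : (⟨aeval x p, h4⟩ : U) = algebraMap k E (coeff 0 p) • (⟨1, h1⟩ : U) +
      ∑ i, algebraMap k E (coeff (Finsupp.single i 1) p) • (⟨x i, hx i⟩ : U) := by
    apply Subtype.ext
    simp only [Submodule.coe_add, Submodule.coe_sum, algebraMap_smul]
    exact h2
  rw [h5, h3, map_add, map_sum, map_smul, hσ]
  simp only [LinearMap.map_smul]
  simp only [algebraMap_smul]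

end Pool.Agent.Helper66.RL
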